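import Pool.Agent.Helper230.EForms

/-!
Interpretations of grammar forms and letter-to-letter maps.
-/

set_option autoImplicit false

namespace Pool.Agent.L7h70.GF

open Pool.Agent.Helper230.EForms

/-- the letters of a sentential form are letters of the grammar -/
theorem deriv_mem {G : Gram} (hG : IsCF G) {u v : List ℕ} (h : Relation.ReflTransGen (cfStep G) u v)
    (hu : ∀ x ∈ u, x ∈ G.V) : ∀ x ∈ v, x ∈ G.V := by
  induction h with
  | refl => exact hu
  | tail _ hs ih =>
    obtain ⟨l, r, A, α, hA, rfl, rfl⟩ := hs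
    intro x hx
    simp only [List.mem_append] at hx ih
    rcases hx with (hx | hx) | hx
    · exact ih x (Or.inl (Or.inl hx))
    · exact (hG.prod _ hA).2 x hx
    · exact ih x (Or.inr hx)

theorem forall2_append_left {α β : Type} {R : α → β → Prop} {a b : List α} {c : List β}
    (h : List.Forall₂ R (a ++ b) c) :
    ∃ c1 c2, c = c1 ++ c2 ∧ List.Forall₂ R a c1 ∧ List.Forall₂ R b c2 := by
  induction a generalizing c with
  | nil => exact ⟨[], c, rfl, List.Forall₂.nil, h⟩
  | cons x a ih =>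
    rcases h with _ | ⟨h1, h2⟩
    obtain ⟨c1, c2, rfl, h3, h4⟩ := ih h2
    exact ⟨_ :: c1, c2, rfl, List.Forall₂.cons h1 h3, h4⟩

theorem forall2_append_right {α β : Type} {R : α → β → Prop} {a b : List β} {c : List α}
    (h : List.Forall₂ R c (a ++ b)) :
    ∃ c1 c2, c = c1 ++ c2 ∧ List.Forall₂ R c1 a ∧ List.Forall₂ R c2 b := by
  induction a generalizing c with
  | nil => exact ⟨[], c, rfl, List.Forall₂.nil, h⟩
  | cons x a ih =>
    rcases h with _ | ⟨h1, h2⟩
    obtain ⟨c1, c2, rfl, h3, h4⟩ := ih h2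
    exact ⟨_ :: c1, c2, rfl, List.Forall₂.cons h1 h3, h4⟩

theorem forall2_append {α β : Type} {R : α → β → Prop} {a a' : List α} {b b' : List β}
    (h : List.Forall₂ R a b) (h' : List.Forall₂ R a' b') : List.Forall₂ R (a ++ a') (b ++ b') := by
  induction h with
  | nil => exact h'
  | cons h1 _ ih => exact List.Forall₂.cons h1 ih

/-- Every word of an interpretation comes from a word of the form. -/
theorem interp_forward {G G' : Gram} {μ : ℕ → Finset ℕ} (hG : IsCF G)
    (hμ : IsInterp G' G μ) {u' : List ℕ} (h : Relation.ReflTransGen (cfStep G') [G'.S] u') :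
    ∃ u, Relation.ReflTransGen (cfStep G) [G.S] u ∧ List.Forall₂ (fun x' x => x' ∈ μ x) u' u := by
  induction h with
  | refl =>
    exact ⟨[G.S], Relation.ReflTransGen.refl, List.Forall₂.cons hμ.start List.Forall₂.nil⟩
  | tail _ hs ih =>
    obtain ⟨u, hu, hf⟩ := ih
    obtain ⟨l', r', A', α', hA', rfl, rfl⟩ := hs
    obtain ⟨c, r, rfl, hc, hr⟩ := forall2_append_left hf
    obtain ⟨l, m, rfl, hl, hm⟩ := forall2_append_left hc
    obtain ⟨⟨A2, α⟩, hq, hA2, hα⟩ := hμ.prod _ hA'
    rcases hm with _ | ⟨hA, hnil⟩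
    rcases hnil with _ | _
    rename_i A
    have hAV : A ∈ G.V := deriv_mem hG hu (by
      intro x hx
      rw [List.mem_singleton] at hx
      rw [hx]
      exact (Finset.mem_sdiff.1 hG.start).1) A (by simp)
    have hA2V : A2 ∈ G.V := (Finset.mem_sdiff.1 (hG.prod _ hq).1).1
    have hAA : A = A2 := by
      by_contra hne
      exact Finset.disjoint_left.1 (hμ.disj A hAV A2 hA2V hne) hA hA2
    subst hAA
    exact ⟨l ++ α ++ r, hu.tail ⟨l, r, A, α, hq, rfl, rfl⟩,
      forall2_append (forall2_append hl hα) hr⟩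

/-- The languages of a family are mapped letter by letter to the language of the form. -/
theorem family_map {G : Gram} (hG : IsCF G) {L : Set (List ℕ)} (hL : L ∈ sFamily G) :
    ∃ φ : ℕ → ℕ, ∀ w ∈ L, w.map φ ∈ cfLanguage G := by
  classical
  obtain ⟨G', hG', ⟨μ, hμ⟩, rfl⟩ := hL
  refine ⟨fun x' => if h : ∃ x ∈ G.V, x' ∈ μ x then h.choose else 0, ?_⟩
  rintro w' ⟨hT, hd⟩
  obtain ⟨w, hw, hf⟩ := interp_forward hG hμ hd
  have hV : ∀ x ∈ w, x ∈ G.V := deriv_mem hG hw (by
      intro x hx
      rw [List.mem_singleton] at hx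
      rw [hx]
      exact (Finset.mem_sdiff.1 hG.start).1)
  have key : ∀ (w' w : List ℕ), List.Forall₂ (fun x' x => x' ∈ μ x) w' w →
      (∀ x ∈ w', x ∈ G'.T) → (∀ x ∈ w, x ∈ G.V) →
      w'.map (fun x' => if h : ∃ x ∈ G.V, x' ∈ μ x then h.choose else 0) = w ∧
      ∀ x ∈ w, x ∈ G.T := by
    intro w' w hf
    induction hf with
    | nil => simp
    | @cons a b l l' h1 _ ih =>
      intro h2 h3
      have hb : b ∈ G.V := h3 b (by simp)
      have hex : ∃ x ∈ G.V, a ∈ μ x := ⟨b, hb, h1⟩
      have hch : hex.choose = b := by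
        by_contra hne
        exact Finset.disjoint_left.1 (hμ.disj _ hex.choose_spec.1 b hb hne)
          hex.choose_spec.2 h1
      obtain ⟨h4, h5⟩ := ih (fun x hx => h2 x (by simp [hx])) (fun x hx => h3 x (by simp [hx]))
      constructor
      · rw [List.map_cons, dif_pos hex, hch, h4]
      · intro x hx
        rcases List.mem_cons.1 hx with rfl | hx
        · by_contra hT
          have := hμ.nonter x (Finset.mem_sdiff.2 ⟨hb, hT⟩) h1
          exact (Finset.mem_sdiff.1 this).2 (h2 a (by simp))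
        · exact h5 x hx
  obtain ⟨h1, h2⟩ := key w' w hf hT hV
  rw [h1]
  exact ⟨h2, hw⟩

/-! ### Realisation of finite languages -/

section Real

variable (G : Gram) (φ : ℕ → ℕ) (H : Finset (List ℕ)) (K : ℕ)

/-- the name of the nonterminal `A` which shall produce the word `w` -/
def nm (A : ℕ) (w : List ℕ) : ℕ := K + 1 + Encodable.encode (A, w)

/-- the intended yield of a letter -/
def yl (x : ℕ) : List ℕ :=
  if x < K then [x] else
    match Encodable.decode (α := ℕ × List ℕ) (x - (K + 1)) with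
    | some p => p.2
    | none => []

theorem yl_letter {x : ℕ} (h : x < K) : yl K x = [x] := if_pos h

theorem yl_nm (A : ℕ) (w : List ℕ) : yl K (nm K A w) = w := by
  unfold yl nm
  rw [if_neg (by omega), show K + 1 + Encodable.encode (A, w) - (K + 1) =
    Encodable.encode (A, w) by omega, Encodable.encodek]

theorem nm_inj {A B : ℕ} {w v : List ℕ} (h : nm K A w = nm K B v) : A = B ∧ w = v := by
  unfold nm at h
  have h1 : Encodable.encode (A, w) = Encodable.encode (B, v) := by omega
  have h2 := Encodable.encode_injective h1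
  exact ⟨congrArg Prod.fst h2, congrArg Prod.snd h2⟩

/-- the factors of the words of `H` -/
noncomputable def fac : Finset (List ℕ) :=
  H.biUnion (fun w => (w.sublists).toFinset)

theorem mem_fac {w l m r : List ℕ} (hw : w ∈ H) (h : w = l ++ m ++ r) : m ∈ fac H := by
  unfold fac
  rw [Finset.mem_biUnion]
  refine ⟨w, hw, ?_⟩
  rw [List.mem_toFinset, List.mem_sublists, h]
  exact (List.sublist_append_right l m).trans (List.sublist_append_left _ _)

/-- the letters of the words of `H` -/
def lets : Finset ℕ := H.biUnion List.toFinset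

/-- the substitution -/
noncomputable def mu (x : ℕ) : Finset ℕ := by
  classical
  exact if x ∈ G.T then (lets H).filter (fun a => φ a = x)
    else if x ∈ G.V then (fac H).image (nm K x) ∪ (if x = G.S then {K} else ∅)
    else ∅

theorem finite_forall2 {α β : Type} (R : α → β → Prop) (hR : ∀ b, {a | R a b}.Finite)
    (l : List β) : {m : List α | List.Forall₂ R m l}.Finite := by
  induction l with
  | nil =>
    refine (Set.finite_singleton ([] : List α)).subset ?_
    intro m hm
    rcases hm with _ | _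
    rfl
  | cons b l ih =>
    refine ((hR b).image2 List.cons ih).subset ?_
    rintro m hm
    rcases hm with _ | ⟨h1, h2⟩
    exact ⟨_, h1, _, h2, rfl⟩

/-- the productions -/
def prods : Set (ℕ × List ℕ) :=
  {p | ∃ A α, (A, α) ∈ G.P ∧ List.Forall₂ (fun x' x => x' ∈ mu G φ H K x) p.2 α ∧ K ∉ p.2 ∧
    ((p.2.flatMap (yl K) ∈ fac H ∧ p.1 = nm K A (p.2.flatMap (yl K))) ∨
     (p.2.flatMap (yl K) ∈ H ∧ A = G.S ∧ p.1 = K))}

theorem prods_finite : (prods G φ H K).Finite := by
  have h1 : (⋃ q ∈ G.P, (({K} : Set ℕ) ∪ (((fac H).image (nm K q.1) : Finset ℕ) : Set ℕ)) ×ˢ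
      {m : List ℕ | List.Forall₂ (fun x' x => x' ∈ mu G φ H K x) m q.2}).Finite := by
    refine G.P.finite_toSet.biUnion (fun q _ => ?_)
    exact (((Set.finite_singleton K).union (Finset.finite_toSet _)).prod
      (finite_forall2 _ (fun b => Finset.finite_toSet _) _))
  refine h1.subset ?_
  rintro ⟨N, β⟩ ⟨A, α, hq, hf, -, h | h⟩
  · refine Set.mem_biUnion (x := (A, α)) hq ⟨Or.inr ?_, hf⟩
    have h2 : N = _ := h.2
    rw [h2]
    exact Finset.mem_coe.2 (Finset.mem_image.2 ⟨_, h.1, rfl⟩)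
  · refine Set.mem_biUnion (x := (A, α)) hq ⟨Or.inl h.2.2, hf⟩

/-- the interpretation with language `H` -/
noncomputable def real : Gram where
  V := G.V.biUnion (mu G φ H K)
  T := G.T.biUnion (mu G φ H K)
  P := (prods_finite G φ H K).toFinset
  S := K

variable {G φ H K}

theorem mem_mu_T {x a : ℕ} (hx : x ∈ G.T) : a ∈ mu G φ H K x ↔ a ∈ lets H ∧ φ a = x := by
  unfold mu
  rw [if_pos hx, Finset.mem_filter]

theorem mem_mu_N {x a : ℕ} (hx : x ∉ G.T) (hV : x ∈ G.V) :
    a ∈ mu G φ H K x ↔ (∃ w ∈ fac H, nm K x w = a) ∨ (x = G.S ∧ a = K) := by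
  unfold mu
  rw [if_neg hx, if_pos hV, Finset.mem_union, Finset.mem_image]
  by_cases h : x = G.S
  · rw [if_pos h, Finset.mem_singleton]
    simp [h]
  · rw [if_neg h]
    simp [h]

theorem mu_out {x : ℕ} (hx : x ∉ G.T) (hV : x ∉ G.V) : mu G φ H K x = ∅ := by
  unfold mu
  rw [if_neg hx, if_neg hV]

theorem mu_disj (hG : IsCF G) (hK : ∀ a ∈ lets H, a < K) {x y : ℕ} (hxy : x ≠ y) :
    Disjoint (mu G φ H K x) (mu G φ H K y) := by
  rw [Finset.disjoint_left]
  intro a hx hy
  by_cases hxT : x ∈ G.T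
  · rw [mem_mu_T hxT] at hx
    by_cases hyT : y ∈ G.T
    · rw [mem_mu_T hyT] at hy
      exact hxy (hx.2.symm.trans hy.2)
    · by_cases hyV : y ∈ G.V
      · rw [mem_mu_N hyT hyV] at hy
        have h1 := hK a hx.1
        rcases hy with ⟨w, -, h⟩ | ⟨-, h⟩
        · unfold nm at h
          omega
        · omega
      · rw [mu_out hyT hyV] at hy
        simp at hy
  · by_cases hxV : x ∈ G.V
    · rw [mem_mu_N hxT hxV] at hx
      by_cases hyT : y ∈ G.T
      · rw [mem_mu_T hyT] at hy
        have h1 := hK a hy.1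
        rcases hx with ⟨w, -, h⟩ | ⟨-, h⟩
        · unfold nm at h
          omega
        · omega
      · by_cases hyV : y ∈ G.V
        · rw [mem_mu_N hyT hyV] at hy
          rcases hx with ⟨w, -, h⟩ | ⟨h0, h⟩ <;> rcases hy with ⟨v, -, h'⟩ | ⟨h0', h'⟩
          · exact hxy (nm_inj K (h.trans h'.symm)).1
          · unfold nm at h
            omega
          · unfold nm at h'
            omega
          · exact hxy (h0.trans h0'.symm)
        · rw [mu_out hyT hyV] at hy
          simp at hy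
    · rw [mu_out hxT hxV] at hx
      simp at hx

theorem real_T_lt (hK : ∀ a ∈ lets H, a < K) {a : ℕ} (h : a ∈ (real G φ H K).T) : a < K := by
  obtain ⟨x, hx, ha⟩ := Finset.mem_biUnion.1 h
  rw [mem_mu_T hx] at ha
  exact hK a ha.1

theorem real_cf (hG : IsCF G) (hK : ∀ a ∈ lets H, a < K) : IsCF (real G φ H K) := by
  have hsub : ∀ x, x ∈ G.V → mu G φ H K x ⊆ (real G φ H K).V := fun x hx =>
    Finset.subset_biUnion_of_mem (mu G φ H K) hx
  have hKS : K ∈ mu G φ H K G.S := by
    obtain ⟨h1, h2⟩ := Finset.mem_sdiff.1 hG.start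
    rw [mem_mu_N h2 h1]
    exact Or.inr ⟨rfl, rfl⟩
  have hKT : K ∉ (real G φ H K).T := fun h => lt_irrefl _ (real_T_lt hK h)
  refine ⟨Finset.biUnion_subset_biUnion_of_subset_left _ hG.ter, ?_, ?_⟩
  · exact Finset.mem_sdiff.2 ⟨hsub _ (Finset.mem_sdiff.1 hG.start).1 hKS, hKT⟩
  · rintro ⟨N, β⟩ hp
    have hp' : (N, β) ∈ prods G φ H K := (Set.Finite.mem_toFinset _).1 hp
    obtain ⟨A, α, hq, hf, hnK, hc⟩ := hp'
    have hAV := (hG.prod _ hq).1
    constructor
    · rcases hc with ⟨h1, h2⟩ | ⟨h1, rfl, h2⟩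
      · have h2' : N = nm K A (β.flatMap (yl K)) := h2
        refine Finset.mem_sdiff.2 ⟨hsub A (Finset.mem_sdiff.1 hAV).1 ?_, ?_⟩
        · rw [mem_mu_N (Finset.mem_sdiff.1 hAV).2 (Finset.mem_sdiff.1 hAV).1]
          exact Or.inl ⟨_, h1, h2'.symm⟩
        · intro h
          have h3 := real_T_lt hK h
          have h4 : N < K := h3
          rw [h2'] at h4
          unfold nm at h4
          omega
      · have h2' : N = K := h2
        refine Finset.mem_sdiff.2 ⟨?_, ?_⟩
        · show N ∈ _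
          rw [h2']
          exact hsub _ (Finset.mem_sdiff.1 hG.start).1 hKS
        · show N ∉ _
          rw [h2']
          exact hKT
    · have hαV := (hG.prod _ hq).2
      have key : ∀ (β α : List ℕ), List.Forall₂ (fun x' x => x' ∈ mu G φ H K x) β α →
          (∀ x ∈ α, x ∈ G.V) → ∀ x ∈ β, x ∈ (real G φ H K).V := by
        intro β α hf
        induction hf with
        | nil => simp
        | cons h1 _ ih =>
          intro h2 x hx
          rcases List.mem_cons.1 hx with rfl | hx
          · exact hsub _ (h2 _ (by simp)) h1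
          · exact ih (fun y hy => h2 y (by simp [hy])) x hx
      exact key β α hf hαV

theorem real_interp (hG : IsCF G) (hK : ∀ a ∈ lets H, a < K) :
    IsInterp (real G φ H K) G (mu G φ H K) := by
  refine ⟨fun a ha => Finset.subset_biUnion_of_mem (mu G φ H K) ha, ?_, ?_, ?_, ?_⟩
  · intro A hA x hx
    refine Finset.mem_sdiff.2 ⟨Finset.subset_biUnion_of_mem (mu G φ H K)
      (Finset.mem_sdiff.1 hA).1 hx, fun h => ?_⟩
    have h1 := real_T_lt hK h
    rw [mem_mu_N (Finset.mem_sdiff.1 hA).2 (Finset.mem_sdiff.1 hA).1] at hx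
    rcases hx with ⟨w, -, h⟩ | ⟨-, h⟩
    · unfold nm at h
      omega
    · omega
  · intro x _ y _ hxy
    exact mu_disj hG hK hxy
  · rintro ⟨N, β⟩ hp
    have hp' : (N, β) ∈ prods G φ H K := (Set.Finite.mem_toFinset _).1 hp
    obtain ⟨A, α, hq, hf, hnK, hc⟩ := hp'
    refine ⟨(A, α), hq, ?_, hf⟩
    have hAV := (hG.prod _ hq).1
    show N ∈ mu G φ H K A
    rw [mem_mu_N (Finset.mem_sdiff.1 hAV).2 (Finset.mem_sdiff.1 hAV).1]
    rcases hc with ⟨h1, h2⟩ | ⟨h1, h2, h3⟩
    · exact Or.inl ⟨_, h1, h2.symm⟩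
    · exact Or.inr ⟨h2, h3⟩
  · obtain ⟨h1, h2⟩ := Finset.mem_sdiff.1 hG.start
    show K ∈ _
    rw [mem_mu_N h2 h1]
    exact Or.inr ⟨rfl, rfl⟩

theorem flatMap_letters (hK : ∀ a ∈ lets H, a < K) {w : List ℕ}
    (hw : ∀ x ∈ w, x < K) : w.flatMap (yl K) = w := by
  induction w with
  | nil => rfl
  | cons a w ih =>
    rw [List.flatMap_cons, yl_letter K (hw a (by simp)), ih (fun x hx => hw x (by simp [hx]))]
    rfl

theorem real_sub (hK : ∀ a ∈ lets H, a < K) {u : List ℕ}
    (h : Relation.ReflTransGen (cfStep (real G φ H K)) [K] u) :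
    u = [K] ∨ (K ∉ u ∧ u.flatMap (yl K) ∈ H) := by
  induction h with
  | refl => exact Or.inl rfl
  | tail _ hs ih =>
    obtain ⟨l, r, N, β, hp, rfl, rfl⟩ := hs
    have hp' : (N, β) ∈ prods G φ H K := (Set.Finite.mem_toFinset _).1 hp
    obtain ⟨A, α, hq, hf, hnK, hc⟩ := hp'
    have hnK' : K ∉ β := hnK
    refine Or.inr ?_
    rcases ih with h1 | ⟨h1, h2⟩
    · have h3 : l = [] ∧ N = K ∧ r = [] := by
        rcases l with _ | ⟨x, l⟩
        · simp at h1
          exact ⟨rfl, h1.1, h1.2⟩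
        · simp at h1
      obtain ⟨rfl, rfl, rfl⟩ := h3
      rcases hc with ⟨h4, h5⟩ | ⟨h4, h5, h6⟩
      · have h5' : N = nm N A _ := h5
        unfold nm at h5'
        omega
      · simpa using ⟨hnK', h4⟩
    · have hNK : N ≠ K := fun h => h1 (by simp [h])
      rcases hc with ⟨h4, h5⟩ | ⟨h4, h5, h6⟩
      · have h5' : N = nm K A (β.flatMap (yl K)) := h5
        have h6 : yl K N = β.flatMap (yl K) := by rw [h5', yl_nm]
        constructor
        · simp only [List.mem_append, not_or, List.mem_singleton] at h1 ⊢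
          exact ⟨⟨h1.1.1, hnK'⟩, h1.2⟩
        · simp only [List.flatMap_append, List.flatMap_cons, List.flatMap_nil, List.append_nil,
            h6] at h2 ⊢
          exact h2
      · exact absurd h6 hNK

theorem lift_exists (hG : IsCF G) (hK : ∀ a ∈ lets H, a < K) {w : List ℕ} (hw : w ∈ H)
    {u : List ℕ} (h : Relation.ReflTransGen (cfStep G) u (w.map φ)) (hT : ∀ x ∈ w.map φ, x ∈ G.T) :
    ∃ u', List.Forall₂ (fun x' x => x' ∈ mu G φ H K x) u' u ∧ K ∉ u' ∧
      u'.flatMap (yl K) = w ∧ Relation.ReflTransGen (cfStep (real G φ H K)) u' w := by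
  have hwl : ∀ x ∈ w, x ∈ lets H := fun x hx =>
    Finset.mem_biUnion.2 ⟨w, hw, List.mem_toFinset.2 hx⟩
  have hwK : ∀ x ∈ w, x < K := fun x hx => hK x (hwl x hx)
  induction h using Relation.ReflTransGen.head_induction_on with
  | refl =>
    refine ⟨w, ?_, fun h => lt_irrefl _ (hwK K h), flatMap_letters hK hwK,
      Relation.ReflTransGen.refl⟩
    have key : ∀ v : List ℕ, (∀ x ∈ v, x ∈ lets H) → (∀ x ∈ v.map φ, x ∈ G.T) →
        List.Forall₂ (fun x' x => x' ∈ mu G φ H K x) v (v.map φ) := by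
      intro v
      induction v with
      | nil => intro _ _; exact List.Forall₂.nil
      | cons a v ih =>
        intro h1 h2
        refine List.Forall₂.cons ?_ (ih (fun x hx => h1 x (by simp [hx]))
          (fun x hx => h2 x (by simp at hx ⊢; exact Or.inr hx)))
        rw [mem_mu_T (h2 _ (by simp))]
        exact ⟨h1 a (by simp), rfl⟩
    exact key w hwl hT
  | head hs _ ih =>
    obtain ⟨v', hf, hKv, hy, hd⟩ := ih
    obtain ⟨l, r, A, α, hA, rfl, rfl⟩ := hs
    obtain ⟨c', r', rfl, hc, hr⟩ := forall2_append_right hf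
    obtain ⟨l', β, rfl, hl, hβ⟩ := forall2_append_right hc
    have hAV := (hG.prod _ hA).1
    have hfac : β.flatMap (yl K) ∈ fac H := by
      refine mem_fac H hw (l := l'.flatMap (yl K)) (r := r'.flatMap (yl K)) ?_
      rw [← hy]
      simp [List.flatMap_append]
    have hKv' : K ∉ l' ∧ K ∉ β ∧ K ∉ r' := by
      simp only [List.mem_append, not_or] at hKv
      exact ⟨hKv.1.1, hKv.1.2, hKv.2⟩
    refine ⟨l' ++ [nm K A (β.flatMap (yl K))] ++ r', ?_, ?_, ?_, ?_⟩
    · refine forall2_append (forall2_append hl (List.Forall₂.cons ?_ List.Forall₂.nil)) hr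
      rw [mem_mu_N (Finset.mem_sdiff.1 hAV).2 (Finset.mem_sdiff.1 hAV).1]
      exact Or.inl ⟨_, hfac, rfl⟩
    · simp only [List.mem_append, not_or, List.mem_singleton]
      refine ⟨⟨hKv'.1, ?_⟩, hKv'.2.2⟩
      unfold nm
      omega
    · simp only [List.flatMap_append, List.flatMap_cons, List.flatMap_nil, List.append_nil,
        yl_nm] at hy ⊢
      exact hy
    · refine Relation.ReflTransGen.head ⟨l', r', nm K A (β.flatMap (yl K)), β, ?_, rfl, rfl⟩ hd
      exact (Set.Finite.mem_toFinset _).2 ⟨A, α, hA, hβ, hKv'.2.1, Or.inl ⟨hfac, rfl⟩⟩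

theorem real_language (hG : IsCF G) (hK : ∀ a ∈ lets H, a < K)
    (hH : ∀ w ∈ H, w.map φ ∈ cfLanguage G) : cfLanguage (real G φ H K) = H := by
  ext w
  constructor
  · rintro ⟨h1, h2⟩
    have h3 : ∀ x ∈ w, x < K := fun x hx => real_T_lt hK (h1 x hx)
    rcases real_sub hK h2 with h4 | ⟨-, h4⟩
    · exact absurd (h3 K (by rw [h4]; simp)) (lt_irrefl _)
    · rw [flatMap_letters hK h3] at h4
      exact h4
  · intro hw
    have hw' : w ∈ H := hw
    obtain ⟨hT, hd⟩ := hH w hw'
    obtain ⟨u', hf, hKu, hy, hd'⟩ := lift_exists hG hK hw' hd hT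
    have hwl : ∀ x ∈ w, x ∈ lets H := fun x hx =>
      Finset.mem_biUnion.2 ⟨w, hw', List.mem_toFinset.2 hx⟩
    refine ⟨fun x hx => ?_, ?_⟩
    · refine Finset.mem_biUnion.2 ⟨φ x, hT _ (List.mem_map.2 ⟨x, hx, rfl⟩), ?_⟩
      rw [mem_mu_T (hT _ (List.mem_map.2 ⟨x, hx, rfl⟩))]
      exact ⟨hwl x hx, rfl⟩
    · rcases hf with _ | ⟨h1, h2⟩
      rcases h2 with _ | _
      rename_i x'
      obtain ⟨h3, h4⟩ := Finset.mem_sdiff.1 hG.start
      rw [mem_mu_N h4 h3] at h1
      rcases h1 with ⟨v, hv, rfl⟩ | ⟨-, rfl⟩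
      · rcases Relation.ReflTransGen.cases_head hd' with h5 | ⟨c, hc, hd''⟩
        · exfalso
          have h6 : nm K G.S v < K := hK _ (hwl _ (by rw [← h5]; simp))
          unfold nm at h6
          omega
        · obtain ⟨l, r, N, β, hp, h6, rfl⟩ := hc
          have h7 : l = [] ∧ N = nm K G.S v ∧ r = [] := by
            rcases l with _ | ⟨y, l⟩
            · simp at h6
              exact ⟨rfl, h6.1.symm, h6.2⟩
            · simp at h6
          obtain ⟨rfl, rfl, rfl⟩ := h7
          refine Relation.ReflTransGen.head ?_ hd''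
          refine ⟨[], [], K, β, ?_, rfl, by simp⟩
          have hp' : (nm K G.S v, β) ∈ prods G φ H K := (Set.Finite.mem_toFinset _).1 hp
          obtain ⟨A, α, hq, hf', hnK, hc'⟩ := hp'
          refine (Set.Finite.mem_toFinset _).2 ⟨A, α, hq, hf', hnK, Or.inr ?_⟩
          rcases hc' with ⟨h8, h9⟩ | ⟨h8, h9, h10⟩
          · obtain ⟨h11, h12⟩ := nm_inj K h9
            refine ⟨?_, h11.symm, rfl⟩
            show β.flatMap (yl K) ∈ H
            rw [← h12]
            have : v = w := by
              have := hy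
              simp only [List.flatMap_cons, List.flatMap_nil, List.append_nil, yl_nm] at this
              exact this
            rw [this]
            exact hw'
          · have h10' : nm K G.S v = K := h10
            unfold nm at h10'
            omega
      · simp at hKu

end Real

/-- A finite language belongs to the family of `G` if it is mapped, letter by letter, into the
language of `G`. -/
theorem mem_family {G : Gram} (hG : IsCF G) (φ : ℕ → ℕ) (H : Finset (List ℕ))
    (hH : ∀ w ∈ H, w.map φ ∈ cfLanguage G) : (H : Set (List ℕ)) ∈ sFamily G := by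
  have hK : ∀ a ∈ lets H, a < (lets H).sup id + 1 := fun a ha =>
    Nat.lt_succ_of_le (Finset.le_sup (f := id) ha)
  exact ⟨real G φ H ((lets H).sup id + 1), real_cf hG hK, ⟨_, real_interp hG hK⟩,
    (real_language hG hK hH).symm⟩

end Pool.Agent.L7h70.GF
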