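import Pool.Agent.L7h70.GF.Order
import Pool.Agent.L7h70.GF.Interp

/-!
Grammatical families of languages of words of length two and homomorphisms of finite relations.
-/

set_option autoImplicit false

namespace Pool.Agent.L7h70.GF

open Pool.Agent.Helper230.EForms

/-- Proper containment of families; languages that differ at most by the empty word are
identified. -/
def FamLT (𝓐 𝓑 : Set (Set (List ℕ))) : Prop := FamLE 𝓐 𝓑 ∧ ¬ FamLE 𝓑 𝓐

/-- The pair of the grammatical families of the forms `F` and `G` is dense: the first family is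
properly contained in the second one, and for all grammatical families `𝓛₁ ⊊ 𝓛₂` which contain the
first and are contained in the second family there is a grammatical family `𝓛₃` with
`𝓛₁ ⊊ 𝓛₃ ⊊ 𝓛₂`. -/
def DensePair (F G : Gram) : Prop :=
  FamLT (sFamily F) (sFamily G) ∧
    ∀ G₁ G₂ : Gram, IsCF G₁ → IsCF G₂ → FamLE (sFamily F) (sFamily G₁) →
      FamLT (sFamily G₁) (sFamily G₂) → FamLE (sFamily G₂) (sFamily G) →
      ∃ G₃ : Gram, IsCF G₃ ∧ FamLT (sFamily G₁) (sFamily G₃) ∧ FamLT (sFamily G₃) (sFamily G₂)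

/-- The form with the productions `S → ab` and `S → ba` (here `S = 0`, `a = 1`, `b = 2`). -/
def F1 : Gram := ⟨{0, 1, 2}, {1, 2}, {(0, [1, 2]), (0, [2, 1])}, 0⟩

/-- The form with the only production `S → aa` (here `S = 0`, `a = 1`). -/
def F2 : Gram := ⟨{0, 1}, {1}, {(0, [1, 1])}, 0⟩

/-- The form with the productions `0 → w`, for `w` in `W`. -/
def ofWords (W : Finset (List ℕ)) : Gram where
  V := insert 0 (W.biUnion List.toFinset)
  T := W.biUnion List.toFinset
  P := W.image (fun w => (0, w))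
  S := 0

theorem ofWords_cf (W : Finset (List ℕ)) (h : ∀ w ∈ W, 0 ∉ w) : IsCF (ofWords W) := by
  refine ⟨fun x hx => Finset.mem_insert_of_mem hx, ?_, ?_⟩
  · refine Finset.mem_sdiff.2 ⟨Finset.mem_insert_self _ _, ?_⟩
    intro hx
    obtain ⟨w, hw, h0⟩ := Finset.mem_biUnion.1 hx
    exact h w hw (List.mem_toFinset.1 h0)
  · rintro ⟨N, w⟩ hp
    obtain ⟨w', hw, h1⟩ := Finset.mem_image.1 hp
    obtain ⟨rfl, rfl⟩ := Prod.mk.inj h1
    refine ⟨Finset.mem_sdiff.2 ⟨Finset.mem_insert_self _ _, ?_⟩, fun x hx =>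
      Finset.mem_insert_of_mem (Finset.mem_biUnion.2 ⟨w', hw, List.mem_toFinset.2 hx⟩)⟩
    intro hx
    obtain ⟨w, hw, h0⟩ := Finset.mem_biUnion.1 hx
    exact h w hw (List.mem_toFinset.1 h0)

theorem lang_of_start {G : Gram} (hG : IsCF G) (h0 : ∀ p ∈ G.P, p.1 = G.S ∧ ∀ x ∈ p.2, x ∈ G.T) :
    cfLanguage G = {w | (G.S, w) ∈ G.P} := by
  have hS : G.S ∉ G.T := (Finset.mem_sdiff.1 hG.start).2
  ext w
  constructor
  · rintro ⟨hT, hd⟩
    have key : w = [G.S] ∨ (G.S, w) ∈ G.P := by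
      induction hd with
      | refl => exact Or.inl rfl
      | @tail b c hd hs ih =>
        obtain ⟨l, r, A, α, hA, rfl, rfl⟩ := hs
        have hAS : A = G.S := (h0 _ hA).1
        subst hAS
        have h1 : ∀ u, Relation.ReflTransGen (cfStep G) [G.S] u → u = [G.S] ∨
            ∀ x ∈ u, x ∈ G.T := by
          intro u hu
          induction hu with
          | refl => exact Or.inl rfl
          | tail _ hs ih =>
            obtain ⟨l, r, A, α, hA, rfl, rfl⟩ := hs
            have hAS : A = G.S := (h0 _ hA).1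
            subst hAS
            rcases ih with h | h
            · right
              have h3 : l = [] ∧ r = [] := by
                rcases l with _ | ⟨x, l⟩
                · simp at h
                  exact ⟨rfl, h⟩
                · simp at h
              obtain ⟨rfl, rfl⟩ := h3
              simpa using (h0 _ hA).2
            · exact absurd (h G.S (by simp)) hS
        rcases h1 _ hd with h | h
        · have h3 : l = [] ∧ r = [] := by
            rcases l with _ | ⟨x, l⟩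
            · simp at h
              exact ⟨rfl, h⟩
            · simp at h
          obtain ⟨rfl, rfl⟩ := h3
          right
          simpa using hA
        · exact absurd (h G.S (by simp)) hS
    rcases key with rfl | h
    · exact absurd (hT G.S (by simp)) hS
    · exact h
  · intro hw
    have hw' : (G.S, w) ∈ G.P := hw
    exact ⟨(h0 _ hw').2, Relation.ReflTransGen.single ⟨[], [], G.S, w, hw', rfl, by simp⟩⟩

theorem ofWords_lang (W : Finset (List ℕ)) (h : ∀ w ∈ W, 0 ∉ w) : cfLanguage (ofWords W) = W := by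
  rw [lang_of_start (ofWords_cf W h)]
  · ext w
    constructor
    · intro hw
      obtain ⟨w', hw', h1⟩ := Finset.mem_image.1 hw
      rw [(Prod.mk.inj h1).2] at hw'
      exact hw'
    · intro hw
      exact Finset.mem_image.2 ⟨w, hw, rfl⟩
  · rintro ⟨N, w⟩ hp
    obtain ⟨w', hw, h1⟩ := Finset.mem_image.1 hp
    obtain ⟨rfl, rfl⟩ := Prod.mk.inj h1
    exact ⟨rfl, fun x hx => Finset.mem_biUnion.2 ⟨w', hw, List.mem_toFinset.2 hx⟩⟩

theorem F1_cf : IsCF F1 := by
  refine ⟨?_, ?_, ?_⟩ <;> decide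

theorem F2_cf : IsCF F2 := by
  refine ⟨?_, ?_, ?_⟩ <;> decide

theorem F1_lang : cfLanguage F1 = {[1, 2], [2, 1]} := by
  rw [lang_of_start F1_cf (by decide)]
  ext w
  simp [F1]

theorem F2_lang : cfLanguage F2 = {[1, 1]} := by
  rw [lang_of_start F2_cf (by decide)]
  ext w
  simp [F2]

/-- The language of a form belongs to its family. -/
theorem self_mem {G : Gram} (hG : IsCF G) : cfLanguage G ∈ sFamily G := by
  refine ⟨G, hG, ⟨fun x => {x}, ?_, ?_, ?_, ?_, ?_⟩, rfl⟩
  · intro a ha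
    simpa using ha
  · intro A hA x hx
    rw [Finset.mem_singleton] at hx
    rw [hx]
    exact hA
  · intro x _ y _ hxy
    simpa using hxy
  · intro p hp
    refine ⟨p, hp, by simp, ?_⟩
    exact List.forall₂_same.2 (fun x _ => by simp)
  · simp

/-- Nonempty words have length two. -/
def Two (G : Gram) : Prop := ∀ w ∈ cfLanguage G, w ≠ [] → w.length = 2

theorem two_of_le {G G' : Gram} (hG : IsCF G) (hG' : IsCF G') (h : Two G')
    (hle : FamLE (sFamily G) (sFamily G')) : Two G := by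
  obtain ⟨L', hL', he⟩ := hle _ (self_mem hG)
  obtain ⟨φ, hφ⟩ := family_map hG' hL'
  intro w hw hne
  have h1 : w ∈ cfLanguage G \ {[]} := ⟨hw, hne⟩
  rw [he] at h1
  have h2 := h _ (hφ w h1.1) (by simpa using hne)
  simpa using h2

theorem F2_two : Two F2 := by
  intro w hw _
  rw [F2_lang] at hw
  rw [Set.mem_singleton_iff.1 hw]
  rfl

/-- The relation of a form. -/
def rel (G : Gram) (a b : {x // x ∈ G.V}) : Prop := [a.1, b.1] ∈ cfLanguage G

theorem mem_V {G : Gram} (hG : IsCF G) {a b : ℕ} (h : [a, b] ∈ cfLanguage G) :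
    a ∈ G.V ∧ b ∈ G.V :=
  ⟨hG.ter (h.1 a (by simp)), hG.ter (h.1 b (by simp))⟩

theorem fam_iff {G₁ G₂ : Gram} (h1 : IsCF G₁) (h2 : IsCF G₂) (hT : Two G₁) :
    FamLE (sFamily G₁) (sFamily G₂) ↔ RHom (rel G₁) (rel G₂) := by
  classical
  constructor
  · intro h
    obtain ⟨L', hL', he⟩ := h _ (self_mem h1)
    obtain ⟨φ, hφ⟩ := family_map h2 hL'
    have key : ∀ a b, [a, b] ∈ cfLanguage G₁ → [φ a, φ b] ∈ cfLanguage G₂ := by
      intro a b hab
      have h3 : [a, b] ∈ cfLanguage G₁ \ {[]} := ⟨hab, by simp⟩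
      rw [he] at h3
      exact hφ _ h3.1
    refine ⟨fun a => if h : φ a.1 ∈ G₂.V then ⟨φ a.1, h⟩ else
      ⟨G₂.S, (Finset.mem_sdiff.1 h2.start).1⟩, fun a b hab => ?_⟩
    have h3 := key _ _ hab
    obtain ⟨h4, h5⟩ := mem_V h2 h3
    simp only [dif_pos h4, dif_pos h5]
    exact h3
  · rintro ⟨f, hf⟩ L hL
    obtain ⟨φ', hφ'⟩ := family_map h1 hL
    obtain ⟨G', hG', -, rfl⟩ := hL
    let φ : ℕ → ℕ := fun x => if h : x ∈ G₁.V then (f ⟨x, h⟩).1 else 0
    let H : Finset (List ℕ) := ((G'.T ×ˢ G'.T).image (fun p => [p.1, p.2])).filter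
      (fun w => w ∈ cfLanguage G')
    have hH : ∀ w, w ∈ H ↔ w ∈ cfLanguage G' ∧ w ≠ [] := by
      intro w
      rw [Finset.mem_filter]
      constructor
      · rintro ⟨h3, h4⟩
        refine ⟨h4, ?_⟩
        rintro rfl
        simp at h3
      · rintro ⟨h3, h4⟩
        refine ⟨?_, h3⟩
        have h5 := hT _ (hφ' w h3) (by simpa using h4)
        rw [List.length_map] at h5
        obtain ⟨x, y, rfl⟩ := List.length_eq_two.1 h5
        exact Finset.mem_image.2 ⟨(x, y), Finset.mem_product.2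
          ⟨h3.1 x (by simp), h3.1 y (by simp)⟩, rfl⟩
    refine ⟨H, mem_family h2 (φ ∘ φ') H ?_, ?_⟩
    · intro w hw
      obtain ⟨h3, h4⟩ := (hH w).1 hw
      have h5 := hφ' w h3
      have h6 := hT _ h5 (by simpa using h4)
      rw [List.length_map] at h6
      obtain ⟨x, y, rfl⟩ := List.length_eq_two.1 h6
      have h7 : [φ' x, φ' y] ∈ cfLanguage G₁ := h5
      obtain ⟨h8, h9⟩ := mem_V h1 h7
      have h10 := hf ⟨_, h8⟩ ⟨_, h9⟩ h7
      show [φ (φ' x), φ (φ' y)] ∈ cfLanguage G₂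
      have e1 : φ (φ' x) = (f ⟨_, h8⟩).1 := dif_pos h8
      have e2 : φ (φ' y) = (f ⟨_, h9⟩).1 := dif_pos h9
      rw [e1, e2]
      exact h10
    · ext w
      rw [Set.mem_sdiff, Set.mem_sdiff, Finset.mem_coe, hH]
      simp

/-- Every relation on a finite nonempty set is, up to homomorphisms, the relation of a form. -/
theorem form_of_rel {γ : Type} [Finite γ] [Nonempty γ] (t : γ → γ → Prop) :
    ∃ G : Gram, IsCF G ∧ Two G ∧ (cfLanguage G).Finite ∧ RHom t (rel G) ∧ RHom (rel G) t := by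
  classical
  have := Fintype.ofFinite γ
  let e := Fintype.equivFin γ
  let i : γ → ℕ := fun x => (e x).1 + 1
  have hi : Function.Injective i := by
    intro x y h
    have h1 : (e x).1 + 1 = (e y).1 + 1 := h
    exact e.injective (Fin.ext (by omega))
  let W : Finset (List ℕ) := (Finset.univ.filter (fun p : γ × γ => t p.1 p.2)).image
    (fun p => [i p.1, i p.2])
  have hW0 : ∀ w ∈ W, 0 ∉ w := by
    intro w hw
    obtain ⟨p, -, rfl⟩ := Finset.mem_image.1 hw
    simp [i]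
  have hmem : ∀ a b, t a b → [i a, i b] ∈ cfLanguage (ofWords W) := by
    intro a b hab
    rw [ofWords_lang W hW0]
    exact Finset.mem_coe.2 (Finset.mem_image.2 ⟨(a, b), by simpa using hab, rfl⟩)
  have hmem' : ∀ w ∈ cfLanguage (ofWords W), ∃ a b, t a b ∧ w = [i a, i b] := by
    intro w hw
    rw [ofWords_lang W hW0] at hw
    obtain ⟨p, hp, rfl⟩ := Finset.mem_image.1 (Finset.mem_coe.1 hw)
    exact ⟨p.1, p.2, by simpa using hp, rfl⟩
  refine ⟨ofWords W, ofWords_cf W hW0, ?_, ?_, ?_, ?_⟩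
  · intro w hw _
    obtain ⟨a, b, -, rfl⟩ := hmem' w hw
    rfl
  · rw [ofWords_lang W hW0]
    exact W.finite_toSet
  · have h0 : 0 ∈ (ofWords W).V := Finset.mem_insert_self _ _
    refine ⟨fun a => if h : i a ∈ (ofWords W).V then ⟨i a, h⟩ else ⟨0, h0⟩, fun a b hab => ?_⟩
    have h3 := hmem a b hab
    obtain ⟨h4, h5⟩ := mem_V (ofWords_cf W hW0) h3
    simp only [dif_pos h4, dif_pos h5]
    exact h3
  · refine ⟨fun x => Function.invFun i x.1, fun x y hxy => ?_⟩
    obtain ⟨a, b, hab, he⟩ := hmem' _ hxy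
    have h1 : x.1 = i a ∧ y.1 = i b := by simpa using he
    show t (Function.invFun i x.1) (Function.invFun i y.1)
    rw [h1.1, h1.2, Function.leftInverse_invFun hi, Function.leftInverse_invFun hi]
    exact hab

theorem rhom_trans {α β γ : Type} {r : α → α → Prop} {s : β → β → Prop} {t : γ → γ → Prop}
    (h1 : RHom r s) (h2 : RHom s t) : RHom r t := by
  obtain ⟨f, hf⟩ := h1
  obtain ⟨g, hg⟩ := h2
  exact ⟨g ∘ f, fun a b h => hg _ _ (hf _ _ h)⟩

theorem rhom_F2 {γ : Type} (t : γ → γ → Prop) : RHom t (rel F2) := by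
  refine ⟨fun _ => ⟨1, by decide⟩, fun a b _ => ?_⟩
  show [1, 1] ∈ cfLanguage F2
  rw [F2_lang]
  rfl

instance (G : Gram) : Finite {x // x ∈ G.V} := inferInstance

theorem nonempty_V {G : Gram} (hG : IsCF G) : Nonempty {x // x ∈ G.V} :=
  ⟨⟨G.S, (Finset.mem_sdiff.1 hG.start).1⟩⟩

/-- a closed walk in the language of the form -/
def HasCycle (G : Gram) : Prop :=
  ∃ (m : ℕ) (a : ℕ → ℕ), 0 < m ∧ a m = a 0 ∧ ∀ i < m, [a i, a (i + 1)] ∈ cfLanguage G

theorem infinite_walk {G : Gram} (hG : IsCF G) (h : HasCycle G) :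
    ∃ c : ℤ → {x // x ∈ G.V}, ∀ i, rel G (c i) (c (i + 1)) := by
  obtain ⟨m, a, hm, ha, hw⟩ := h
  have hV : ∀ i < m, a i ∈ G.V := fun i hi => (mem_V hG (hw i hi)).1
  have hm' : (m : ℤ) ≠ 0 := by exact_mod_cast hm.ne'
  have hlt : ∀ z : ℤ, (z % m).toNat < m := by
    intro z
    have h1 := Int.emod_lt_of_pos z (show (0 : ℤ) < m by exact_mod_cast hm)
    have h2 := Int.emod_nonneg z hm'
    omega
  refine ⟨fun z => ⟨a (z % m).toNat, hV _ (hlt z)⟩, fun z => ?_⟩
  show [a (z % m).toNat, a ((z + 1) % m).toNat] ∈ cfLanguage G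
  have h1 := hw _ (hlt z)
  have h2 : a ((z % m).toNat + 1) = a ((z + 1) % m).toNat := by
    have h3 := Int.emod_nonneg z hm'
    have h4 := hlt z
    have h5 : (z + 1) % m = (z % m + 1) % m := by simp [Int.add_emod]
    by_cases h6 : (z % m).toNat + 1 = m
    · have h7 : z % m + 1 = m := by omega
      rw [h6, ha, h5, h7, Int.emod_self]
      rfl
    · have h7 : (z % m + 1) % m = z % m + 1 := Int.emod_eq_of_lt (by omega) (by omega)
      rw [h5, h7]
      congr 1
      omega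
  rw [h2] at h1
  exact h1

theorem dense_of_cycle {F : Gram} (hF : IsCF F) (hlt : FamLT (sFamily F) (sFamily F2))
    (hc : HasCycle F) : DensePair F F2 := by
  refine ⟨hlt, fun G₁ G₂ h1 h2 hF1 h12 h22 => ?_⟩
  have hT2 : Two G₂ := two_of_le h2 F2_cf F2_two h22
  have hT1 : Two G₁ := two_of_le h1 h2 hT2 h12.1
  have hTF : Two F := two_of_le hF h1 hT1 hF1
  obtain ⟨c, hc'⟩ := infinite_walk hF hc
  obtain ⟨f, hf⟩ := (fam_iff hF h1 hTF).1 hF1
  have h12' := (fam_iff h1 h2 hT1).1 h12.1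
  have h21' : ¬ RHom (rel G₂) (rel G₁) := fun h => h12.2 ((fam_iff h2 h1 hT2).2 h)
  obtain ⟨γ, hγ, t, ht1, ht2, ht3, ht4⟩ := density (rel G₁) (rel G₂)
    ⟨fun i => f (c i), fun i => hf _ _ (hc' i)⟩ h12' h21'
  have hne : Nonempty γ := by
    obtain ⟨g, -⟩ := ht1
    obtain ⟨x⟩ := nonempty_V h1
    exact ⟨g x⟩
  obtain ⟨G₃, h3, hT3, -, h3a, h3b⟩ := form_of_rel t
  refine ⟨G₃, h3, ⟨(fam_iff h1 h3 hT1).2 (rhom_trans ht1 h3a), fun h => ?_⟩,
    ⟨(fam_iff h3 h2 hT3).2 (rhom_trans h3b ht2), fun h => ?_⟩⟩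
  · exact ht3 (rhom_trans h3a ((fam_iff h3 h1 hT3).1 h))
  · exact ht4 (rhom_trans ((fam_iff h2 h3 hT2).1 h) h3b)

theorem cycle_of_dense {F : Gram} (hF : IsCF F) (hd : DensePair F F2) : HasCycle F := by
  have hTF : Two F := two_of_le hF F2_cf F2_two hd.1.1
  by_contra hc
  have h1 : ∃ n, ¬ RHom (path n) (rel F) := by
    by_contra h
    push Not at h
    obtain ⟨m, a, hm, ha, hw⟩ := closed_of_paths (rel F) h
    exact hc ⟨m, fun i => (a i).1, hm, congrArg Subtype.val ha, fun i hi => hw i hi⟩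
  obtain ⟨n, hn⟩ := h1
  obtain ⟨g1, g2, g3, g4⟩ := gap (rel F) n hn
  have hne := nonempty_V hF
  obtain ⟨G₁, hG1, hT1, -, h1a, h1b⟩ := form_of_rel
    (un (rel F) (path n) (fun i j : Fin n => i < j))
  obtain ⟨G₂, hG2, hT2, -, h2a, h2b⟩ := form_of_rel (du (rel F) (path n))
  obtain ⟨G₃, hG3, h13, h32⟩ := hd.2 G₁ G₂ hG1 hG2
    ((fam_iff hF hG1 hTF).2 (rhom_trans g1 h1a))
    ⟨(fam_iff hG1 hG2 hT1).2 (rhom_trans h1b (rhom_trans g2 h2a)), fun h =>
      g3 (rhom_trans h2a (rhom_trans ((fam_iff hG2 hG1 hT2).1 h) h1b))⟩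
    ((fam_iff hG2 F2_cf hT2).2 (rhom_F2 _))
  have hT3 : Two G₃ := two_of_le hG3 hG2 hT2 h32.1
  rcases g4 _ (rel G₃) (rhom_trans h1a ((fam_iff hG1 hG3 hT1).1 h13.1))
    (rhom_trans ((fam_iff hG3 hG2 hT3).1 h32.1) h2b) with h | h
  · exact h13.2 ((fam_iff hG3 hG1 hT3).2 (rhom_trans h h1a))
  · exact h32.2 ((fam_iff hG2 hG3 hT2).2 (rhom_trans h2b h))

theorem F1_lt : FamLT (sFamily F1) (sFamily F2) := by
  have hT1 : Two F1 := by
    intro w hw _
    rw [F1_lang] at hw
    rcases hw with rfl | rfl <;> rfl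
  refine ⟨(fam_iff F1_cf F2_cf hT1).2 (rhom_F2 _), fun h => ?_⟩
  obtain ⟨f, hf⟩ := (fam_iff F2_cf F1_cf F2_two).1 h
  have h1 : rel F2 ⟨1, by decide⟩ ⟨1, by decide⟩ := by
    show [1, 1] ∈ cfLanguage F2
    rw [F2_lang]
    rfl
  have h2 : [(f ⟨1, by decide⟩).1, (f ⟨1, by decide⟩).1] ∈ cfLanguage F1 := hf _ _ h1
  rw [F1_lang] at h2
  rcases h2 with h2 | h2
  · simp at h2
    omega
  · have h3 : [(f ⟨1, by decide⟩).1, (f ⟨1, by decide⟩).1] = [2, 1] := h2
    simp at h3
    omega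

theorem F1_cycle : HasCycle F1 := by
  refine ⟨2, fun i => if i = 1 then 2 else 1, by omega, by simp, fun i hi => ?_⟩
  rw [F1_lang]
  interval_cases i
  · left
    simp
  · right
    simp

end Pool.Agent.L7h70.GF
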