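import Pool.Agent.Y387.CR.Shift

/-!
The homomorphism order of finite binary relations: density above a directed cycle, and gaps above
every acyclic relation.
-/

set_option autoImplicit false

namespace Pool.Agent.L7h70.GF

open Pool.Agent.Y387.CR

/-- there is a map that preserves the relation -/
def RHom {α β : Type} (r : α → α → Prop) (s : β → β → Prop) : Prop :=
  ∃ f : α → β, ∀ a b, r a b → s (f a) (f b)

/-- the underlying graph of the relation on a subset -/
def sub {β : Type} (s : β → β → Prop) (W : Set β) : SimpleGraph W where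
  Adj a b := a ≠ b ∧ (s a.1 b.1 ∨ s b.1 a.1)
  symm := ⟨fun _ _ h => ⟨h.1.symm, h.2.symm⟩⟩
  loopless := ⟨fun _ h => h.1 rfl⟩

/-- the disjoint union of `r` and the product of `s` and `t` -/
def un {α β U : Type} (r : α → α → Prop) (s : β → β → Prop) (t : U → U → Prop) :
    α ⊕ (β × U) → α ⊕ (β × U) → Prop
  | Sum.inl a, Sum.inl b => r a b
  | Sum.inr p, Sum.inr q => s p.1 q.1 ∧ t p.2 q.2
  | _, _ => False

/-- the disjoint union of `r` and `s` -/
def du {α β : Type} (r : α → α → Prop) (s : β → β → Prop) : α ⊕ β → α ⊕ β → Prop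
  | Sum.inl a, Sum.inl b => r a b
  | Sum.inr a, Sum.inr b => s a b
  | _, _ => False

/-- the middle entries of a tuple stay in the tuple on a short walk in the shift graph -/
theorem walk_keep {n k : ℕ} {a b : Tup n k} (w : (sh n k).Walk a b) :
    ∀ i : ℕ, w.length ≤ i → ∀ (hi : i + w.length ≤ k),
      ∃ (j : ℕ) (hj : j < k + 1), i ≤ j + w.length ∧ j ≤ i + w.length ∧
        b.1 ⟨j, hj⟩ = a.1 ⟨i, by omega⟩ := by
  induction w with
  | nil =>
    intro i _ hi
    exact ⟨i, by simp at hi; omega, by simp, by simp, rfl⟩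
  | @cons a a' b h p ih =>
    intro i h1 h2
    have hl : (SimpleGraph.Walk.cons h p).length = p.length + 1 := SimpleGraph.Walk.length_cons h p
    rw [hl] at h1
    rcases h with h | h
    · obtain ⟨j, hj, h3, h4, h5⟩ := ih (i - 1) (by omega) (by omega)
      refine ⟨j, hj, by omega, by omega, ?_⟩
      rw [h5]
      have h6 := h.2 ⟨i - 1, by omega⟩
      have e1 : (⟨i - 1, by omega⟩ : Fin k).succ = ⟨i, by omega⟩ :=
        Fin.ext (by show i - 1 + 1 = i; omega)
      have e2 : (⟨i - 1, by omega⟩ : Fin k).castSucc = ⟨i - 1, by omega⟩ := rfl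
      rw [e1, e2] at h6
      exact h6
    · obtain ⟨j, hj, h3, h4, h5⟩ := ih (i + 1) (by omega) (by omega)
      refine ⟨j, hj, by omega, by omega, ?_⟩
      rw [h5]
      have h6 := h.2 ⟨i, by omega⟩
      have e1 : (⟨i, by omega⟩ : Fin k).succ = ⟨i + 1, by omega⟩ := rfl
      have e2 : (⟨i, by omega⟩ : Fin k).castSucc = ⟨i, by omega⟩ := rfl
      rw [e1, e2] at h6
      exact h6.symm

/-- Density of the homomorphism order of finite binary relations above every relation which has a
two-sided infinite walk, that is, a directed cycle. -/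
theorem density {α β : Type} [Finite α] [Finite β] (r : α → α → Prop) (s : β → β → Prop)
    (hK : ∃ c : ℤ → α, ∀ i, r (c i) (c (i + 1))) (hrs : RHom r s) (hsr : ¬ RHom s r) :
    ∃ (γ : Type) (_ : Finite γ) (t : γ → γ → Prop),
      RHom r t ∧ RHom t s ∧ ¬ RHom t r ∧ ¬ RHom s t := by
  classical
  -- representatives of the components of all subsets of `β`, and a bound for the distances
  let rep : ∀ (W : Set β), W → W := fun W b => ((sub s W).connectedComponentMk b).out
  have hw : ∀ (W : Set β) (b : W), Nonempty ((sub s W).Walk (rep W b) b) := by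
    intro W b
    have h1 : (sub s W).connectedComponentMk (rep W b) = (sub s W).connectedComponentMk b :=
      Quot.out_eq _
    exact SimpleGraph.ConnectedComponent.eq.1 h1
  obtain ⟨g, hg⟩ : ∃ g, ∀ p : (Σ W : Set β, W), (hw p.1 p.2).some.length ≤ g := by
    obtain ⟨g, hg⟩ := (Set.finite_range
      (fun p : (Σ W : Set β, W) => (hw p.1 p.2).some.length)).bddAbove
    exact ⟨g, fun p => hg ⟨p, rfl⟩⟩
  obtain ⟨n, hcol⟩ := shift_color (2 * g + 2) (β → α)
  refine ⟨α ⊕ (β × Tup n (2 * g + 2)), inferInstance, un r s Shift,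
    ⟨Sum.inl, fun a b h => h⟩, ?_, ?_, ?_⟩
  · obtain ⟨f, hf⟩ := hrs
    refine ⟨Sum.elim f Prod.fst, ?_⟩
    rintro (a | p) (b | q) h
    · exact hf a b h
    · exact h.elim
    · exact h.elim
    · exact h.1
  · rintro ⟨F, hF⟩
    obtain ⟨u, v, huv, hfe⟩ := hcol (fun u b => F (Sum.inr (b, u)))
    refine hsr ⟨fun b => F (Sum.inr (b, u)), fun b b' hb => ?_⟩
    have h2 := hF (Sum.inr (b, u)) (Sum.inr (b', v)) ⟨hb, huv⟩
    have h3 : F (Sum.inr (b', u)) = F (Sum.inr (b', v)) := congrFun hfe b'
    show r (F (Sum.inr (b, u))) (F (Sum.inr (b', u)))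
    rw [h3]
    exact h2
  · rintro ⟨F, hF⟩
    obtain ⟨c, hc⟩ := hK
    let W : Set β := {b | ∃ p, F b = Sum.inr p}
    have hex : ∀ b : W, ∃ p, F b.1 = Sum.inr p := fun b => b.2
    choose P hP using hex
    let φ : sub s W →g sh n (2 * g + 2) := ⟨fun b => (P b).2, by
      rintro a b ⟨-, h | h⟩
      · have h3 := hF _ _ h
        rw [hP a, hP b] at h3
        exact Or.inl h3.2
      · have h3 := hF _ _ h
        rw [hP a, hP b] at h3
        exact Or.inr h3.2⟩
    -- the position of the middle entry of the representative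
    have hpos : ∀ b : W, ∃ (j : ℕ) (hj : j < 2 * g + 2 + 1), 1 ≤ j ∧
        (P b).2.1 ⟨j, hj⟩ = (P (rep W b)).2.1 ⟨g + 1, by omega⟩ := by
      intro b
      have h1 := hg ⟨W, b⟩
      have h1' : (hw W b).some.length ≤ g := h1
      obtain ⟨j, hj, h2, h3, h4⟩ := walk_keep ((hw W b).some.map φ) (g + 1)
        (by rw [SimpleGraph.Walk.length_map]; omega)
        (by rw [SimpleGraph.Walk.length_map]; omega)
      rw [SimpleGraph.Walk.length_map] at h2
      exact ⟨j, hj, by omega, h4⟩
    choose pos hposlt hpos1 hposeq using hpos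
    have hstep : ∀ b b' : W, s b.1 b'.1 → pos b' + 1 = pos b := by
      intro b b' hb
      have h3 := hF _ _ hb
      rw [hP b, hP b'] at h3
      have hsh : Shift (P b).2 (P b').2 := h3.2
      have hne : b ≠ b' := by
        rintro rfl
        exact lt_irrefl _ hsh.1
      have hadj : (sub s W).Adj b b' := ⟨hne, Or.inl hb⟩
      have hrep : rep W b = rep W b' := by
        show ((sub s W).connectedComponentMk b).out = ((sub s W).connectedComponentMk b').out
        rw [SimpleGraph.ConnectedComponent.eq.2 hadj.reachable]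
      have h4 := hsh.2 ⟨pos b - 1, by have := hposlt b; have := hpos1 b; omega⟩
      have e1 : (⟨pos b - 1, by have := hposlt b; have := hpos1 b; omega⟩ :
          Fin (2 * g + 2)).succ = ⟨pos b, hposlt b⟩ :=
        Fin.ext (by show pos b - 1 + 1 = pos b; have := hpos1 b; omega)
      rw [e1, hposeq b, hrep, ← hposeq b'] at h4
      have h5 := (P b').2.2.injective h4
      have h6 : pos b - 1 = pos b' := congrArg Fin.val h5
      have := hpos1 b
      omega
    refine hsr ⟨fun b => if h : b ∈ W then c (-(pos ⟨b, h⟩ : ℤ)) else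
      (F b).elim id (fun _ => c 0), fun b b' hb => ?_⟩
    have h2 := hF b b' hb
    by_cases hbW : b ∈ W
    · obtain ⟨p, hp⟩ := id hbW
      have hb'W : b' ∈ W := by
        rcases hq : F b' with q | q
        · rw [hp, hq] at h2
          exact h2.elim
        · exact ⟨q, hq⟩
      have h3 := hstep ⟨b, hbW⟩ ⟨b', hb'W⟩ hb
      simp only [hbW, hb'W, dif_pos]
      have h4 := hc (-(pos ⟨b, hbW⟩ : ℤ))
      have h5 : -(pos ⟨b, hbW⟩ : ℤ) + 1 = -(pos ⟨b', hb'W⟩ : ℤ) := by
        rw [← h3]
        push_cast
        ring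
      rw [h5] at h4
      exact h4
    · rcases hp : F b with p | p
      · have hb'W : b' ∉ W := by
          rintro ⟨q, hq⟩
          rw [hp, hq] at h2
          exact h2
        rcases hq : F b' with q | q
        · rw [hp, hq] at h2
          simp only [hbW, hb'W, dif_neg, not_false_eq_true, hp, hq, Sum.elim_inl, id]
          exact h2
        · exact absurd ⟨q, hq⟩ hb'W
      · exact absurd ⟨p, hp⟩ hbW

/-- the relation of the directed path with `n` arcs -/
def path (n : ℕ) (i j : Fin (n + 1)) : Prop := j.1 = i.1 + 1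

/-- A finite relation without a walk with `n` arcs is mapped to the strict order on `n` points. -/
theorem hom_order {γ : Type} (t : γ → γ → Prop) (n : ℕ) (h : ¬ RHom (path n) t) :
    RHom t (fun i j : Fin n => i < j) := by
  classical
  -- the set of the lengths of the walks that end in `x`
  let E : γ → ℕ → Prop := fun x l => ∃ f : ℕ → γ, f l = x ∧ ∀ i < l, t (f i) (f (i + 1))
  have hE0 : ∀ x, E x 0 := fun x => ⟨fun _ => x, rfl, fun i hi => absurd hi (by omega)⟩
  have hlt : ∀ x l, E x l → l < n := by
    rintro x l ⟨f, -, hf⟩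
    by_contra hle
    push Not at hle
    refine h ⟨fun i => f i.1, fun i j hij => ?_⟩
    have hij' : j.1 = i.1 + 1 := hij
    have h1 := hf i.1 (by have := j.2; omega)
    rw [← hij'] at h1
    exact h1
  have hstep : ∀ x y l, t x y → E x l → E y (l + 1) := by
    rintro x y l hxy ⟨f, hx, hf⟩
    refine ⟨fun i => if i ≤ l then f i else y, by simp, fun i hi => ?_⟩
    have h1 : i ≤ l := by omega
    simp only [h1, if_true]
    by_cases h2 : i + 1 ≤ l
    · simp only [h2, if_true]
      exact hf i (by omega)
    · have h3 : i = l := by omega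
      subst h3
      simp only [h2, if_false]
      rw [hx]
      exact hxy
  have hbd : ∀ x, ∃ l, E x l ∧ ∀ l', E x l' → l' ≤ l := by
    intro x
    have hfin : {l | E x l}.Finite := (Set.finite_Iio n).subset (fun l hl => hlt x l hl)
    obtain ⟨l, hl, hmax⟩ := Set.exists_max_image {l | E x l} id hfin ⟨0, hE0 x⟩
    exact ⟨l, hl, fun l' hl' => hmax l' hl'⟩
  choose lv hlv hmax using hbd
  refine ⟨fun x => ⟨lv x, hlt x _ (hlv x)⟩, fun x y hxy => ?_⟩
  have h1 := hmax y _ (hstep x y _ hxy (hlv x))
  show lv x < lv y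
  omega

/-- Above a relation without a walk with `n` arcs there is a gap. -/
theorem gap {α : Type} (r : α → α → Prop) (n : ℕ) (h : ¬ RHom (path n) r) :
    RHom r (un r (path n) (fun i j : Fin n => i < j)) ∧
    RHom (un r (path n) (fun i j : Fin n => i < j)) (du r (path n)) ∧
    ¬ RHom (du r (path n)) (un r (path n) (fun i j : Fin n => i < j)) ∧
    ∀ (γ : Type) (t : γ → γ → Prop), RHom (un r (path n) (fun i j : Fin n => i < j)) t →
      RHom t (du r (path n)) → RHom t (un r (path n) (fun i j : Fin n => i < j)) ∨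
        RHom (du r (path n)) t := by
  refine ⟨⟨Sum.inl, fun a b h => h⟩, ⟨Sum.elim Sum.inl (fun p => Sum.inr p.1), ?_⟩, ?_, ?_⟩
  · rintro (a | p) (b | q) h
    · exact h
    · exact h.elim
    · exact h.elim
    · exact h.1
  · rintro ⟨F, hF⟩
    -- all points of the path are mapped to the same side
    rcases h0 : F (Sum.inr 0) with a | p
    · refine h ⟨fun i => (F (Sum.inr i)).elim id (fun _ => a), ?_⟩
      have hall : ∀ k : ℕ, ∀ hk : k < n + 1, ∃ b, F (Sum.inr ⟨k, hk⟩) = Sum.inl b := by
        intro k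
        induction k with
        | zero => intro _; exact ⟨a, h0⟩
        | succ k ih =>
          intro hk
          obtain ⟨b, hb⟩ := ih (by omega)
          have h1 := hF (Sum.inr ⟨k, by omega⟩) (Sum.inr ⟨k + 1, hk⟩) rfl
          rw [hb] at h1
          rcases hc : F (Sum.inr ⟨k + 1, hk⟩) with c | c
          · exact ⟨c, rfl⟩
          · rw [hc] at h1
            exact h1.elim
      intro i j hij
      obtain ⟨b, hb⟩ := hall i.1 i.2
      obtain ⟨c, hc⟩ := hall j.1 j.2
      have h1 := hF (Sum.inr i) (Sum.inr j) hij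
      have hb' : F (Sum.inr i) = Sum.inl b := hb
      have hc' : F (Sum.inr j) = Sum.inl c := hc
      rw [hb', hc'] at h1
      simp only [hb', hc', Sum.elim_inl, id]
      exact h1
    · have hall : ∀ k : ℕ, ∀ hk : k < n + 1, ∃ q : Fin (n + 1) × Fin n,
          F (Sum.inr ⟨k, hk⟩) = Sum.inr q ∧ k ≤ q.2.1 := by
        intro k
        induction k with
        | zero => intro _; exact ⟨p, h0, Nat.zero_le _⟩
        | succ k ih =>
          intro hk
          obtain ⟨b, hb, hkb⟩ := ih (by omega)
          have h1 := hF (Sum.inr ⟨k, by omega⟩) (Sum.inr ⟨k + 1, hk⟩) rfl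
          rw [hb] at h1
          rcases hc : F (Sum.inr ⟨k + 1, hk⟩) with c | c
          · rw [hc] at h1
            exact h1.elim
          · rw [hc] at h1
            have h2 : b.2 < c.2 := h1.2
            have h3 : b.2.1 < c.2.1 := h2
            exact ⟨c, rfl, by omega⟩
      obtain ⟨q, -, hq⟩ := hall n (by omega)
      have := q.2.2
      omega
  · rintro γ t ⟨f, hf⟩ ⟨e, he⟩
    by_cases hp : RHom (path n) t
    · right
      obtain ⟨p, hp⟩ := hp
      refine ⟨Sum.elim (fun a => f (Sum.inl a)) p, ?_⟩
      rintro (a | a) (b | b) hab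
      · exact hf _ _ hab
      · exact hab.elim
      · exact hab.elim
      · exact hp _ _ hab
    · left
      obtain ⟨l, hl⟩ := hom_order t n hp
      refine ⟨fun x => (e x).elim Sum.inl (fun i => Sum.inr (i, l x)), fun x y hxy => ?_⟩
      have h1 := he x y hxy
      have h2 := hl x y hxy
      show un r (path n) (fun i j : Fin n => i < j)
        ((e x).elim Sum.inl (fun i => Sum.inr (i, l x)))
        ((e y).elim Sum.inl (fun i => Sum.inr (i, l y)))
      rcases hx : e x with a | a <;> rcases hy : e y with b | b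
      · rw [hx, hy] at h1
        exact h1
      · rw [hx, hy] at h1
        exact h1.elim
      · rw [hx, hy] at h1
        exact h1.elim
      · rw [hx, hy] at h1
        exact ⟨h1, h2⟩

/-- A finite relation that has walks of all lengths contains a closed walk. -/
theorem closed_of_paths {γ : Type} [Finite γ] (t : γ → γ → Prop)
    (h : ∀ n, RHom (path n) t) :
    ∃ (m : ℕ) (a : ℕ → γ), 0 < m ∧ a m = a 0 ∧ ∀ i < m, t (a i) (a (i + 1)) := by
  obtain ⟨f, hf⟩ := h (Nat.card γ)
  have hni : ¬ Function.Injective f := by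
    intro hinj
    have := Nat.card_le_card_of_injective _ hinj
    simp at this
  rw [Function.Injective] at hni
  push Not at hni
  obtain ⟨x, y, hxy, hne⟩ := hni
  have key : ∀ x y : Fin (Nat.card γ + 1), f x = f y → x < y →
      ∃ (m : ℕ) (a : ℕ → γ), 0 < m ∧ a m = a 0 ∧ ∀ i < m, t (a i) (a (i + 1)) := by
    intro x y hxy hlt
    have hlt' : x.1 < y.1 := hlt
    have hy := y.2
    refine ⟨y.1 - x.1, fun i => if h : x.1 + i < Nat.card γ + 1 then f ⟨x.1 + i, h⟩ else f x,
      by omega, ?_, fun i hi => ?_⟩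
    · simp only
      rw [dif_pos (by omega), dif_pos (by omega)]
      have e1 : (⟨x.1 + (y.1 - x.1), by omega⟩ : Fin (Nat.card γ + 1)) = y :=
        Fin.ext (by show x.1 + (y.1 - x.1) = y.1; omega)
      rw [e1]
      exact hxy.symm
    · simp only
      rw [dif_pos (by omega), dif_pos (by omega)]
      exact hf _ _ (by show x.1 + (i + 1) = x.1 + i + 1; omega)
  rcases lt_or_gt_of_ne hne with h1 | h1
  · exact key x y hxy h1
  · exact key y x hxy.symm h1

end Pool.Agent.L7h70.GF
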